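import Pool.Agent.K4H57.FC.Fam
import Pool.Agent.K4H57.UH.Final
import Pool.Agent.K4H57.CI.Int

/-!
# The integral products over the subfamilies; the numerical bounds
-/

set_option autoImplicit false

open Finset Polynomial

namespace Pool.Agent.K4H57.FC

open Pool.Agent.K4H57.UH Pool.Agent.R920.CH Pool.Agent.K4H57.CI

/-- The products over the proper subfamilies are integers. -/
lemma prod_int (P : ℤ[X]) (hP : P.Monic) (r : ℕ) (hr : P.natDegree = r) (x : Fin r → ℂ)
    (hx : rootsOf P = univ.val.map x) :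
    ∃ ρ : ℕ → ℤ, ∀ k : ℕ, ∏ S ∈ PS r, ((k : ℂ) - ss x S) = ρ k := by
  classical
  suffices h : ∀ k : ℕ, ∃ m : ℤ, ∏ S ∈ PS r, ((k : ℂ) - ss x S) = m by
    choose ρ hρ using h
    exact ⟨ρ, hρ⟩
  intro k
  let G : Finset (Fin r) → MvPolynomial (Fin r) ℤ := fun T =>
    (k : MvPolynomial (Fin r) ℤ) - ∑ i ∈ T, MvPolynomial.X i
  let q : MvPolynomial (Fin r) ℤ := ∏ T ∈ PS r, G T
  have hq : q.IsSymmetric := by
    intro e
    show MvPolynomial.rename e (∏ T ∈ PS r, G T) = ∏ T ∈ PS r, G T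
    rw [map_prod]
    have h1 : ∀ T, MvPolynomial.rename e (G T) = G (T.map e.toEmbedding) := by
      intro T
      show MvPolynomial.rename e ((k : MvPolynomial (Fin r) ℤ) - ∑ i ∈ T, MvPolynomial.X i) =
        (k : MvPolynomial (Fin r) ℤ) - ∑ i ∈ T.map e.toEmbedding, MvPolynomial.X i
      rw [map_sub, map_natCast, map_sum, Finset.sum_map]
      simp only [MvPolynomial.rename_X]
      rfl
    simp only [h1]
    refine Finset.prod_equiv (Equiv.finsetCongr e) ?_ ?_
    · intro T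
      simp only [PS, mem_erase, mem_powerset, subset_univ, and_true, Equiv.finsetCongr_apply]
      rw [Ne, Ne, Ne, Ne, Finset.map_eq_empty]
      have h2 : T.map e.toEmbedding = univ ↔ T = univ := by
        constructor
        · intro h
          have h3 := congrArg Finset.card h
          rw [Finset.card_map, card_univ] at h3
          exact (Finset.card_eq_iff_eq_univ T).1 h3
        · intro h
          rw [h]
          exact Finset.map_univ_equiv e
      rw [h2]
    · intro T _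
      rfl
  obtain ⟨Q, hQ⟩ := MvPolynomial.esymmAlgHom_surjective ℤ
    (σ := Fin r) (n := r) (Fintype.card_fin r).le ⟨q, hq⟩
  have hQ' : MvPolynomial.aeval (fun i : Fin r => MvPolynomial.esymm (Fin r) ℤ (i + 1)) Q = q := by
    rw [← MvPolynomial.esymmAlgHom_apply, hQ]
  refine ⟨MvPolynomial.eval (fun i : Fin r => (-1) ^ ((i : ℕ) + 1) * P.coeff (r - (i + 1))) Q, ?_⟩
  have hdeg : (P.map (Int.castRingHom ℂ)).natDegree = r := by rw [hP.natDegree_map, hr]
  have hcard : Multiset.card (P.map (Int.castRingHom ℂ)).roots = r := by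
    rw [splits_iff_card_roots.1 (IsAlgClosed.splits _), hdeg]
  have h1 : ∏ S ∈ PS r, ((k : ℂ) - ss x S) = MvPolynomial.aeval x q := by
    show _ = MvPolynomial.aeval x (∏ T ∈ PS r, G T)
    rw [map_prod]
    refine Finset.prod_congr rfl fun T _ => ?_
    show _ = MvPolynomial.aeval x ((k : MvPolynomial (Fin r) ℤ) - ∑ i ∈ T, MvPolynomial.X i)
    rw [map_sub, map_natCast, map_sum]
    simp only [MvPolynomial.aeval_X]
    rfl
  rw [h1, ← hQ']
  have h2 : MvPolynomial.aeval x (MvPolynomial.aeval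
      (fun i : Fin r => MvPolynomial.esymm (Fin r) ℤ (i + 1)) Q) =
      MvPolynomial.aeval (fun i : Fin r =>
        MvPolynomial.aeval x (MvPolynomial.esymm (Fin r) ℤ (i + 1))) Q := by
    rw [← AlgHom.comp_apply]
    congr 1
    apply MvPolynomial.algHom_ext
    intro i
    simp
  rw [h2]
  have h3 : ∀ i : Fin r, MvPolynomial.aeval x (MvPolynomial.esymm (Fin r) ℤ (i + 1)) =
      (((-1) ^ ((i : ℕ) + 1) * P.coeff (r - (i + 1)) : ℤ) : ℂ) := by
    intro i
    rw [MvPolynomial.aeval_esymm_eq_multiset_esymm, ← hx, rootsOf]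
    have hi := i.2
    have h4 := coeff_eq_esymm_roots_of_card (p := P.map (Int.castRingHom ℂ))
      (by rw [hcard, hdeg]) (k := r - (i + 1)) (by rw [hdeg]; omega)
    rw [(hP.map _).leadingCoeff, hdeg, one_mul, coeff_map, eq_intCast,
      show r - (r - ((i : ℕ) + 1)) = i + 1 by omega] at h4
    push_cast
    rw [h4, ← mul_assoc, ← mul_pow]
    norm_num
  simp only [h3]
  have h5 : MvPolynomial.aeval (fun i : Fin r =>
      (((-1) ^ ((i : ℕ) + 1) * P.coeff (r - (i + 1)) : ℤ) : ℂ)) Q =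
      (Int.castRingHom ℂ) (MvPolynomial.eval
        (fun i : Fin r => (-1) ^ ((i : ℕ) + 1) * P.coeff (r - (i + 1))) Q) := by
    rw [MvPolynomial.eval₂_comp]
    rfl
  rw [h5]
  rfl

/-- The sum of the roots. -/
lemma sum_roots (r : ℕ) (hr : 1 ≤ r) (c : ℕ → ℤ) (h0 : c 0 = 1) :
    (rootsOf (chernPoly r c)).sum = r + c 1 := by
  obtain ⟨hM, hD⟩ := chernPoly_monic r c h0
  have h1 := (IsAlgClosed.splits ((chernPoly r c).map (Int.castRingHom ℂ)))
  have h2 := h1.nextCoeff_eq_neg_sum_roots_of_monic (hM.map (Int.castRingHom ℂ))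
  rw [nextCoeff_map (f := Int.castRingHom ℂ) Int.cast_injective] at h2
  have h3 : (chernPoly r c).nextCoeff = -(r + c 1) := by
    rw [nextCoeff_of_natDegree_pos (by omega), hD, chernPoly, finsetSum_coeff]
    have h4 : ∀ i ∈ range (r + 1), (C ((-1) ^ i * c i) * (X - 1) ^ (r - i) : ℤ[X]).coeff (r - 1) =
        (if i = 0 then -(r : ℤ) else 0) + (if i = 1 then - c 1 else 0) := by
      intro i hi
      rw [mem_range] at hi
      have h5 : (X - 1 : ℤ[X]) = X + C (-1) := by rw [C_neg, C_1, sub_eq_add_neg]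
      rw [coeff_C_mul, h5, coeff_X_add_C_pow]
      rcases Nat.lt_trichotomy i 1 with hi1 | hi1 | hi1
      · have hi0 : i = 0 := by omega
        subst hi0
        rw [if_pos rfl, if_neg (by norm_num), h0, Nat.sub_zero,
          show r - (r - 1) = 1 by omega]
        have h6 : r.choose (r - 1) = r := by
          rw [Nat.choose_symm hr, Nat.choose_one_right]
        rw [h6]
        simp
      · subst hi1
        rw [if_neg (by norm_num), if_pos rfl, Nat.sub_self, Nat.choose_self]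
        simp
      · rw [if_neg (by omega), if_neg (by omega), Nat.choose_eq_zero_of_lt (by omega)]
        simp
    rw [sum_congr rfl h4, sum_add_distrib, sum_ite_eq' (range (r + 1)) 0,
      sum_ite_eq' (range (r + 1)) 1, if_pos (mem_range.2 (by omega)),
      if_pos (mem_range.2 (by omega))]
    ring
  rw [h3] at h2
  rw [rootsOf]
  have h6 : (Int.castRingHom ℂ) (-(r + c 1)) = -((r : ℂ) + c 1) := by simp
  rw [h6] at h2
  exact (neg_injective h2).symm

/-- A power of two. -/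
lemma ten_le (u : ℕ) (hu : 6 ≤ u) : 10 * u ≤ 2 ^ u := by
  induction u, hu using Nat.le_induction with
  | base => norm_num
  | succ n hn ih =>
    rw [pow_succ]
    omega

lemma pow_ten (N : ℕ) (hN : 60 ≤ N) : (N + 2) ^ 10 ≤ 2 ^ N := by
  induction N, hN using Nat.le_induction with
  | base => norm_num
  | succ n hn ih =>
    have h1 : (62 * (n + 1 + 2)) ^ 10 ≤ (63 * (n + 2)) ^ 10 :=
      Nat.pow_le_pow_left (by omega) 10
    rw [mul_pow, mul_pow] at h1
    have h2 : 63 ^ 10 * (n + 2) ^ 10 ≤ (62 ^ 10 * 2) * (n + 2) ^ 10 :=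
      Nat.mul_le_mul_right _ (by norm_num)
    have h3 : 62 ^ 10 * (n + 1 + 2) ^ 10 ≤ 62 ^ 10 * (2 * (n + 2) ^ 10) := by
      refine h1.trans (h2.trans (le_of_eq ?_))
      ring
    have h4 := Nat.le_of_mul_le_mul_left h3 (by norm_num)
    calc (n + 1 + 2) ^ 10 ≤ 2 * (n + 2) ^ 10 := h4
      _ ≤ 2 * 2 ^ n := Nat.mul_le_mul_left _ ih
      _ = 2 ^ (n + 1) := by rw [pow_succ]; ring

/-- The numerical inequality. -/
lemma numeric (n r e : ℕ) (hr : 1 ≤ r) (hN : 30 * r * 2 ^ r ≤ n + r)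
    (hk : e ≤ n + 1 ∨ (e + r + 1) ^ (10 * (e - n)) ≤ 2 ^ (n + r)) :
    ((4 * (r + e)) ^ r + 2) * ((2 * r + 1) * (r + e)) ^ (2 ^ r - 2) *
      (r + e + 1) ^ (r + e + 1 - (n + r + 3 - 2 ^ r)) < 2 ^ (n + r + 3 - 2 ^ r) := by
  obtain ⟨t, ht⟩ : ∃ t, 2 ^ r = t + 2 := by
    have : 2 ^ 1 ≤ 2 ^ r := Nat.pow_le_pow_right (by norm_num) hr
    exact ⟨2 ^ r - 2, by omega⟩
  have hrt : 2 * r ≤ t + 2 := by
    rw [← ht]
    have h1 : ∀ m : ℕ, 2 * (m + 1) ≤ 2 ^ (m + 1) := by
      intro m
      induction m with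
      | zero => norm_num
      | succ m ih => rw [pow_succ]; omega
    obtain ⟨m, rfl⟩ : ∃ m, r = m + 1 := ⟨r - 1, by omega⟩
    exact h1 m
  set N := n + r with hNdef
  set x := r + e + 1 with hx
  set j := N / (4 * (t + 2)) with hj
  have hj1 : 4 * (t + 2) * j ≤ N := Nat.mul_div_le N (4 * (t + 2))
  have hj2 : N < 4 * (t + 2) * (j + 1) := Nat.lt_mul_div_succ N (by omega)
  rw [ht] at hN
  have hj7 : 7 * r ≤ j := by
    rw [hj, Nat.le_div_iff_mul_le (by omega)]
    calc 7 * r * (4 * (t + 2)) = 28 * r * (t + 2) := by ring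
      _ ≤ 30 * r * (t + 2) := by
        refine Nat.mul_le_mul_right _ ?_
        omega
      _ ≤ N := hN
  have hN60 : 60 ≤ N := by
    have : 30 * 1 * 2 ≤ 30 * r * (t + 2) :=
      Nat.mul_le_mul (Nat.mul_le_mul_left _ hr) (by omega)
    omega
  have h2x : 2 ≤ x := by omega
  -- the exponent
  have hsmall : 10 * (e - n) ≤ N ∨ e ≤ n + 1 := by
    rcases hk with hk | hk
    · exact Or.inr hk
    · left
      have h1 : 2 ^ (10 * (e - n)) ≤ 2 ^ N :=
        (Nat.pow_le_pow_left (by omega : 2 ≤ e + r + 1) _).trans hk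
      exact (Nat.pow_le_pow_iff_right (by norm_num)).1 h1
  have hxN : 10 * x ≤ 11 * N + 10 := by
    rcases hsmall with h | h <;> omega
  have hxj : x ≤ 2 ^ j := by
    have h1 : 10 * x ≤ 10 * 2 ^ j := by
      have h2 : 11 * N + 10 ≤ 44 * (t + 2) * (j + 1) + 10 := by
        have h3 : 11 * N ≤ 11 * (4 * (t + 2) * (j + 1)) := Nat.mul_le_mul_left _ hj2.le
        have h4 : 11 * (4 * (t + 2) * (j + 1)) = 44 * (t + 2) * (j + 1) := by ring
        omega
      have h3 : 44 * (t + 2) * (j + 1) + 10 ≤ (t + 2) * (44 * (j + 1) + 10) := by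
        have h4 : (t + 2) * (44 * (j + 1) + 10) = 44 * (t + 2) * (j + 1) + 10 * (t + 2) := by ring
        omega
      have h4 : 44 * (j + 1) + 10 ≤ 10 * 2 ^ (j - r) := by
        have h5 := ten_le (j - r) (by omega)
        omega
      have h5 : (t + 2) * (10 * 2 ^ (j - r)) = 10 * 2 ^ j := by
        rw [← ht]
        have h6 : 2 ^ r * 2 ^ (j - r) = 2 ^ j := by
          rw [← pow_add]
          congr 1
          omega
        rw [← h6]
        ring
      have h6 : (t + 2) * (44 * (j + 1) + 10) ≤ (t + 2) * (10 * 2 ^ (j - r)) :=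
        Nat.mul_le_mul_left _ h4
      omega
    omega
  set s := N / 10 with hs
  have hxe : x ^ (e - n) ≤ 2 ^ (s + 1) := by
    have hs2 : 2 ^ N ≤ (2 ^ (s + 1)) ^ 10 := by
      rw [← pow_mul]
      exact Nat.pow_le_pow_right (by norm_num) (by omega)
    have h1 : (x ^ (e - n)) ^ 10 ≤ (2 ^ (s + 1)) ^ 10 := by
      refine le_trans ?_ hs2
      rcases hk with hk | hk
      · rcases Nat.lt_or_ge n e with hen | hen
        · have h2 : e - n = 1 := by omega
          rw [h2, pow_one]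
          refine le_trans ?_ (pow_ten N hN60)
          exact Nat.pow_le_pow_left (by omega) 10
        · have h2 : e - n = 0 := by omega
          rw [h2, pow_zero, one_pow]
          exact Nat.one_le_two_pow
      · rw [← pow_mul, mul_comm (e - n) 10]
        refine le_trans (le_of_eq ?_) hk
        rw [hx]
        congr 1
        ring
    exact (Nat.pow_le_pow_iff_left (by norm_num)).1 h1
  have hE : x ^ (r + e + 1 - (N + 3 - 2 ^ r)) ≤ 2 ^ (s + 1) * 2 ^ (j * t) := by
    have h1 : r + e + 1 - (N + 3 - 2 ^ r) ≤ (e - n) + t := by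
      rw [ht]
      omega
    calc x ^ (r + e + 1 - (N + 3 - 2 ^ r)) ≤ x ^ ((e - n) + t) :=
          Nat.pow_le_pow_right (by omega) h1
      _ = x ^ (e - n) * x ^ t := pow_add _ _ _
      _ ≤ 2 ^ (s + 1) * (2 ^ j) ^ t := Nat.mul_le_mul hxe (Nat.pow_le_pow_left hxj t)
      _ = _ := by rw [← pow_mul]
  have h1 : (4 * (r + e)) ^ r + 2 ≤ 2 ^ (2 * r + r * j) := by
    have h2 : (4 * (r + e)) ^ r + 4 ^ r ≤ (4 * (r + e) + 4) ^ r :=
      pow_add_pow_le (Nat.zero_le _) (Nat.zero_le _) (by omega)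
    have h3 : 4 ^ 1 ≤ 4 ^ r := Nat.pow_le_pow_right (by norm_num) hr
    have h4 : (4 * (r + e) + 4) ^ r = 4 ^ r * x ^ r := by
      rw [← mul_pow]
      congr 1
    have h5 : 4 ^ r * x ^ r ≤ 2 ^ (2 * r + r * j) := by
      have h6 : 2 ^ (2 * r + r * j) = 4 ^ r * (2 ^ j) ^ r := by
        rw [pow_add, pow_mul, mul_comm r j, pow_mul 2 j r]
        norm_num
      rw [h6]
      exact Nat.mul_le_mul_left _ (Nat.pow_le_pow_left hxj r)
    omega
  have h2 : ((2 * r + 1) * (r + e)) ^ (2 ^ r - 2) ≤ 2 ^ ((r + 1 + j) * t) := by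
    have h3 : 2 ^ r - 2 = t := by omega
    rw [h3, pow_mul]
    refine Nat.pow_le_pow_left ?_ t
    have h4 : 2 * r + 1 ≤ 2 ^ (r + 1) := by
      have h5 : r + 1 ≤ 2 ^ r := Nat.lt_two_pow_self
      rw [pow_succ]
      omega
    calc (2 * r + 1) * (r + e) ≤ 2 ^ (r + 1) * 2 ^ j := Nat.mul_le_mul h4 (by omega)
      _ = _ := by rw [← pow_add]
  have hfin : ((2 * r + r * j) + (r + 1 + j) * t) + ((s + 1) + j * t) < N + 3 - 2 ^ r := by
    rw [ht]
    have a1 : 4 * (j * t) + 8 * j ≤ N := by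
      have : 4 * (t + 2) * j = 4 * (j * t) + 8 * j := by ring
      omega
    have a2 : 2 * (r * j) ≤ j * t + 2 * j := by
      have h3 : 2 * r * j ≤ (t + 2) * j := Nat.mul_le_mul_right _ hrt
      have h4 : 2 * r * j = 2 * (r * j) := by ring
      have h5 : (t + 2) * j = j * t + 2 * j := by ring
      omega
    have a3 : 7 * (r * t) ≤ j * t := by
      have h3 : 7 * r * t ≤ j * t := Nat.mul_le_mul_right _ hj7
      have h4 : 7 * r * t = 7 * (r * t) := by ring
      omega
    have a4 : 30 * (r * t) + 60 * r ≤ N := by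
      have : 30 * r * (t + 2) = 30 * (r * t) + 60 * r := by ring
      omega
    have a5 : t ≤ r * t := Nat.le_mul_of_pos_left t hr
    have a6 : (r + 1 + j) * t = r * t + t + j * t := by ring
    have a7 : 10 * s ≤ N := by omega
    rw [a6]
    omega
  calc ((4 * (r + e)) ^ r + 2) * ((2 * r + 1) * (r + e)) ^ (2 ^ r - 2) *
        x ^ (r + e + 1 - (N + 3 - 2 ^ r)) ≤
        2 ^ (2 * r + r * j) * 2 ^ ((r + 1 + j) * t) * (2 ^ (s + 1) * 2 ^ (j * t)) :=
          Nat.mul_le_mul (Nat.mul_le_mul h1 h2) hE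
    _ = 2 ^ (((2 * r + r * j) + (r + 1 + j) * t) + ((s + 1) + j * t)) := by
      rw [← pow_add, ← pow_add, ← pow_add]
    _ < 2 ^ (N + 3 - 2 ^ r) := Nat.pow_lt_pow_right (by norm_num) hfin

end Pool.Agent.K4H57.FC
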