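import Mathlib

/-!
# The numerical bound for the Chebyshev polynomials
-/

set_option autoImplicit false

open Finset Polynomial

namespace Pool.Agent.K4H57.FC

lemma prod_nat (r A D t : ℕ) (hr : 1 ≤ r) (hA : A ≤ D) (hD : 8 ≤ D) :
    2 * (D ^ (t + 1) * (((4 * A) ^ r + 2) * ((2 * r + 1) * A) ^ t)) ≤
      (6 * r * D) ^ (2 * t + r + 2) := by
  have hDQ : D ≤ 6 * r * D := Nat.le_mul_of_pos_left D (by omega)
  have h1 : D ^ (t + 1) ≤ (6 * r * D) ^ (t + 1) := Nat.pow_le_pow_left hDQ _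
  have h2 : (4 * A) ^ r + 2 ≤ (6 * r * D) ^ r := by
    have h3 : (4 * A) ^ r ≤ (4 * D) ^ r := Nat.pow_le_pow_left (by omega) _
    have h4 : (4 * D) ^ r + (2 * D) ^ r ≤ (4 * D + 2 * D) ^ r :=
      pow_add_pow_le (Nat.zero_le _) (Nat.zero_le _) (by omega)
    have h5 : (4 * D + 2 * D) ^ r ≤ (6 * r * D) ^ r := by
      refine Nat.pow_le_pow_left ?_ _
      have : 6 * 1 * D ≤ 6 * r * D := Nat.mul_le_mul_right _ (Nat.mul_le_mul_left _ hr)
      omega
    have h6 : (2 * D) ^ 1 ≤ (2 * D) ^ r := Nat.pow_le_pow_right (by omega) hr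
    rw [pow_one] at h6
    omega
  have h3 : ((2 * r + 1) * A) ^ t ≤ (6 * r * D) ^ t :=
    Nat.pow_le_pow_left (Nat.mul_le_mul (by omega) hA) _
  calc 2 * (D ^ (t + 1) * (((4 * A) ^ r + 2) * ((2 * r + 1) * A) ^ t)) ≤
        (6 * r * D) * ((6 * r * D) ^ (t + 1) * ((6 * r * D) ^ r * (6 * r * D) ^ t)) :=
        Nat.mul_le_mul (by omega) (Nat.mul_le_mul h1 (Nat.mul_le_mul h2 h3))
    _ = _ := by ring

/-- The numerical inequality for the Chebyshev polynomials. -/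
lemma numeric_cheb (n r e : ℕ) (hr : 1 ≤ r)
    (hN : 3 * (√((2 : ℝ) ^ r * (e + 2 ^ (r + 2))) * Real.log (6 * r * (e + 2 ^ (r + 2)))) ≤
      n + r) : 2 ^ r ≤ n + r ∧ ∃ (D ν : ℕ) (θ : ℝ), r + e ≤ D ∧
      (2 ^ r - 2) + ν + 2 ^ r ≤ n + r + 2 ∧
      (Real.cosh θ - 1) * D ≤ 2 * (((2 ^ r - 2 : ℕ) : ℝ) + 1) ∧
      (D : ℝ) ^ (2 ^ r - 2 + 1) * (((4 * (r + e : ℕ)) ^ r + 2) *
        ((2 * r + 1) * (r + e : ℕ)) ^ (2 ^ r - 2)) < Real.exp (ν * θ) / 2 := by
  obtain ⟨t, ht⟩ : ∃ t, 2 ^ r = t + 2 := by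
    have : 2 ^ 1 ≤ 2 ^ r := Nat.pow_le_pow_right (by norm_num) hr
    exact ⟨2 ^ r - 2, by omega⟩
  have hrt : 2 * r ≤ t + 2 := by
    rw [← ht]
    have h1 : ∀ m : ℕ, 2 * (m + 1) ≤ 2 ^ (m + 1) := by
      intro m
      induction m with
      | zero => norm_num
      | succ m ih => rw [pow_succ]; omega
    obtain ⟨m, rfl⟩ : ∃ m, r = m + 1 := ⟨r - 1, by omega⟩
    exact h1 m
  have htr : ((2 : ℝ)) ^ r = t + 2 := by exact_mod_cast ht
  have htr2 : ((2 : ℝ)) ^ (r + 2) = 4 * (t + 2) := by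
    rw [pow_add, htr]
    ring
  set D : ℕ := e + 4 * (t + 2) with hD
  have hDr : ((e : ℝ) + 2 ^ (r + 2)) = D := by
    rw [htr2, hD]
    push_cast
    ring
  rw [hDr, htr] at hN
  have ht0 : (0 : ℝ) ≤ t := by positivity
  set T : ℝ := (t : ℝ) + 2 with hT
  have hT2 : 2 ≤ T := by linarith
  have hD4 : 4 * T ≤ D := by
    rw [hD, hT]
    push_cast
    have : (0 : ℝ) ≤ e := by positivity
    linarith
  have hD0 : (0 : ℝ) < D := by linarith
  set S : ℝ := √(T * D) with hS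
  have hS2 : S * S = T * D := Real.mul_self_sqrt (by positivity)
  have hS0 : 0 < S := Real.sqrt_pos.2 (by positivity)
  have hST : 2 * T ≤ S := by
    rw [hS]
    apply Real.le_sqrt_of_sq_le
    nlinarith
  have hr1 : (1 : ℝ) ≤ r := by exact_mod_cast hr
  set L : ℝ := Real.log (6 * r * D) with hL
  have hQ0 : (0 : ℝ) < 6 * r * D := by positivity
  have hQ48 : (48 : ℝ) ≤ 6 * r * D := by nlinarith
  have hL3 : 3 ≤ L := by
    rw [hL, Real.le_log_iff_exp_le hQ0]
    have h1 : Real.exp 3 = Real.exp 1 ^ 3 := by rw [← Real.exp_nat_mul]; norm_num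
    have h2 := Real.exp_one_lt_d9
    have h3 : Real.exp 1 ^ 3 ≤ 2.7182818286 ^ 3 :=
      pow_le_pow_left₀ (Real.exp_pos 1).le h2.le 3
    rw [h1]
    refine h3.trans (le_trans (by norm_num) hQ48)
  have hSL : 6 * T ≤ S * L := by nlinarith
  have hN18 : 18 * T ≤ ((n + r : ℕ) : ℝ) := by
    push_cast
    linarith
  have hNt : 2 * t ≤ n + r := by
    have h1 : ((2 * t : ℕ) : ℝ) ≤ ((n + r : ℕ) : ℝ) := by
      push_cast at hN18 ⊢
      linarith
    exact_mod_cast h1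
  set θ : ℝ := 6 / 5 * (T / S) with hθ
  refine ⟨?_, D, n + r - 2 * t, θ, ?_, ?_, ?_, ?_⟩
  · have h1 : ((2 ^ r : ℕ) : ℝ) ≤ ((n + r : ℕ) : ℝ) := by
      rw [ht]
      push_cast at hN18 ⊢
      linarith
    exact_mod_cast h1
  · omega
  · rw [ht]
    omega
  · rw [ht]
    have h0 : ((t + 2 - 2 : ℕ) : ℝ) = t := by
      rw [Nat.add_sub_cancel]
    rw [h0]
    set v : ℝ := θ ^ 2 / 2 with hv
    have hvD : v * D = 18 / 25 * T := by
      have h1 : θ ^ 2 * (S * S) = 36 / 25 * (T * T) := by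
        rw [hθ]
        field_simp
        ring
      rw [hS2] at h1
      have h2 : θ ^ 2 * D * T = 36 / 25 * T * T := by linarith
      have h3 := mul_right_cancel₀ (by positivity : T ≠ 0) h2
      rw [hv]
      linarith
    have hv0 : 0 ≤ v := by positivity
    have hv1 : v ≤ 18 / 100 := by
      have h1 : v * (4 * T) ≤ 18 / 25 * T := by
        rw [← hvD]
        exact mul_le_mul_of_nonneg_left hD4 hv0
      have h2 : v * 4 * T ≤ 18 / 25 * T := by linarith
      have h3 := le_of_mul_le_mul_right h2 (by linarith)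
      linarith
    have h1 := Real.cosh_le_exp_half_sq θ
    rw [← hv] at h1
    have h2 : (1 - v) * Real.exp v ≤ 1 := by
      have h3 := Real.one_sub_le_exp_neg v
      calc (1 - v) * Real.exp v ≤ Real.exp (-v) * Real.exp v :=
            mul_le_mul_of_nonneg_right h3 (Real.exp_pos v).le
        _ = 1 := by rw [← Real.exp_add]; simp
    have h3 : Real.exp v ≤ 5 / 4 := by nlinarith [Real.exp_pos v]
    have h4 : Real.exp v - 1 ≤ 5 / 4 * v := by nlinarith
    have h5 : (Real.cosh θ - 1) * D ≤ (5 / 4 * v) * D :=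
      mul_le_mul_of_nonneg_right (by linarith) hD0.le
    have h6 : (5 / 4 * v) * D = 9 / 10 * T := by linarith
    rw [h6] at h5
    linarith
  · have h2 : 2 ^ r - 2 = t := by omega
    rw [h2]
    have h1 : (2 : ℝ) * ((D : ℝ) ^ (t + 1) * (((4 * (r + e : ℕ)) ^ r + 2) *
        ((2 * r + 1) * (r + e : ℕ)) ^ t)) ≤ (6 * r * D) ^ (2 * t + r + 2) := by
      have h3 := prod_nat r (r + e) D t hr (by omega) (by omega)
      exact_mod_cast h3
    have h4 : (6 * r * D : ℝ) ^ (2 * t + r + 2) = Real.exp ((2 * t + r + 2 : ℕ) * L) := by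
      rw [Real.exp_nat_mul, hL, Real.exp_log hQ0]
    rw [h4] at h1
    have h5 : ((2 * t + r + 2 : ℕ) : ℝ) * L < ((n + r - 2 * t : ℕ) : ℝ) * θ := by
      rw [Nat.cast_sub hNt]
      push_cast
      have h6 : (2 : ℝ) * r ≤ T := by
        rw [hT]
        exact_mod_cast hrt
      have h7 : 3 * (S * L) - 2 * T ≤ (n : ℝ) + r - 2 * t := by linarith
      have h8 : (3 * (S * L) - 2 * T) * θ = 18 / 5 * T * L - 12 / 5 * T * (T / S) := by
        rw [hθ]
        field_simp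
        ring
      have h9 : T / S ≤ 1 / 2 := by
        rw [div_le_iff₀ hS0]
        linarith
      have hθ0 : 0 ≤ θ := by positivity
      have h10 : (3 * (S * L) - 2 * T) * θ ≤ ((n : ℝ) + r - 2 * t) * θ :=
        mul_le_mul_of_nonneg_right h7 hθ0
      have h11 : 12 / 5 * T * (T / S) ≤ 12 / 5 * T * (1 / 2) :=
        mul_le_mul_of_nonneg_left h9 (by positivity)
      have h12 : (2 * (t : ℝ) + r + 2) * L ≤ 5 / 2 * T * L := by
        refine mul_le_mul_of_nonneg_right ?_ (by linarith)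
        linarith
      have h13 : T * 3 ≤ T * L := mul_le_mul_of_nonneg_left hL3 (by linarith)
      nlinarith
    have h6 := Real.exp_lt_exp.2 h5
    linarith

end Pool.Agent.K4H57.FC
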