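import Mathlib

/-!
# Polynomials with integral coefficients and a zero of high order at `1`: Chebyshev polynomials
-/

set_option autoImplicit false

open Finset Polynomial

namespace Pool.Agent.K4H57.FC

/-- Integers with many vanishing moments vanish, if they are not large. -/
theorem zero_of_cheb (D : ℕ) (g : ℕ → ℤ) (M : ℕ)
    (hmom : ∀ u : ℝ[X], u.natDegree ≤ M → ∑ k ∈ range (D + 1), (g k : ℝ) * u.eval (k : ℝ) = 0)
    (B : ℝ) (hB : ∀ k ≤ D, |(g k : ℝ)| ≤ B) (t ν : ℕ) (htν : t + ν ≤ M) (θ : ℝ)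
    (hθ : (Real.cosh θ - 1) * D ≤ 2 * (t + 1))
    (hsize : (D : ℝ) ^ (t + 1) * B < Real.exp (ν * θ) / 2) : ∀ k ≤ D, g k = 0 := by
  classical
  by_contra hcon
  push Not at hcon
  have hex : ∃ k, k ≤ D ∧ g k ≠ 0 := hcon
  set k0 := Nat.find hex with hk0
  obtain ⟨hk0D, hk0g⟩ := Nat.find_spec hex
  have hmin : ∀ k < k0, g k = 0 := by
    intro k hk
    by_contra h
    exact Nat.find_min hex hk ⟨by omega, h⟩
  have hc1 : 1 ≤ Real.cosh θ := Real.one_le_cosh θ
  have ht0 : (0 : ℝ) < t + 1 := by positivity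
  set a : ℝ := (Real.cosh θ - 1) / (t + 1) with ha
  have ha0 : 0 ≤ a := div_nonneg (by linarith) ht0.le
  have haD : a * D ≤ 2 := by
    rw [ha, div_mul_eq_mul_div, div_le_iff₀ ht0]
    exact hθ
  have hat : a * (t + 1) = Real.cosh θ - 1 := by
    rw [ha, div_mul_cancel₀ _ ht0.ne']
  set φ : ℝ[X] := C (1 + a * (t + 1) + a * k0) - C a * X with hφ
  have hφe : ∀ x : ℝ, φ.eval x = 1 + a * (t + 1 - (x - k0)) := by
    intro x
    rw [hφ, eval_sub, eval_mul, eval_C, eval_C, eval_X]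
    ring
  have hφd : φ.natDegree ≤ 1 := by
    rw [hφ]
    refine (natDegree_sub_le _ _).trans (max_le ?_ ?_)
    · rw [natDegree_C]
      omega
    · exact (natDegree_C_mul_le _ _).trans natDegree_X_le
  set w : ℝ[X] := ∏ i ∈ range t, (X - C ((k0 : ℝ) + i + 1)) with hw
  have hwe : ∀ x : ℝ, w.eval x = ∏ i ∈ range t, (x - k0 - (i + 1)) := by
    intro x
    rw [hw, eval_prod]
    refine prod_congr rfl fun i _ => ?_
    rw [eval_sub, eval_X, eval_C]
    ring
  have hwd : w.natDegree ≤ t := by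
    rw [hw]
    refine (natDegree_prod_le _ _).trans ((sum_le_sum fun i _ => natDegree_X_sub_C_le _).trans ?_)
    simp
  set u : ℝ[X] := w * (Polynomial.Chebyshev.T ℝ (ν : ℤ)).comp φ with hu
  have hud : u.natDegree ≤ M := by
    have h1 : ((Polynomial.Chebyshev.T ℝ (ν : ℤ)).comp φ).natDegree ≤ ν := by
      refine natDegree_comp_le.trans ?_
      rw [Polynomial.Chebyshev.natDegree_T]
      simp only [Int.natAbs_natCast]
      calc ν * φ.natDegree ≤ ν * 1 := Nat.mul_le_mul_left _ hφd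
        _ = ν := mul_one _
    refine natDegree_mul_le.trans ?_
    omega
  have hue : ∀ x : ℝ, u.eval x = (∏ i ∈ range t, (x - k0 - (i + 1))) *
      (Polynomial.Chebyshev.T ℝ (ν : ℤ)).eval (1 + a * (t + 1 - (x - k0))) := by
    intro x
    rw [hu, eval_mul, hwe, eval_comp, hφe]
  have hu0 : Real.exp (ν * θ) / 2 ≤ |u.eval (k0 : ℝ)| := by
    rw [hue, sub_self, sub_zero, hat]
    have h1 : 1 + (Real.cosh θ - 1) = Real.cosh θ := by ring
    rw [h1, Polynomial.Chebyshev.T_real_cosh, abs_mul]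
    have h2 : (1 : ℝ) ≤ |∏ i ∈ range t, ((0 : ℝ) - (i + 1))| := by
      rw [abs_prod]
      refine Finset.prod_induction _ (fun x : ℝ => 1 ≤ x)
        (fun a b ha hb => one_le_mul_of_one_le_of_one_le ha hb) le_rfl ?_
      intro i _
      rw [zero_sub, abs_neg, abs_of_nonneg (by positivity)]
      have : (0 : ℝ) ≤ i := by positivity
      linarith
    have h3 : Real.exp (ν * θ) / 2 ≤ |Real.cosh (((ν : ℕ) : ℤ) * θ)| := by
      rw [abs_of_nonneg (Real.cosh_pos _).le, Real.cosh_eq]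
      push_cast
      have := Real.exp_pos (-(ν * θ))
      linarith
    calc Real.exp (ν * θ) / 2 ≤ 1 * |Real.cosh (((ν : ℕ) : ℤ) * θ)| := by rw [one_mul]; exact h3
      _ ≤ _ := mul_le_mul_of_nonneg_right h2 (abs_nonneg _)
  have huk : ∀ k ≤ D, k0 < k → |u.eval (k : ℝ)| ≤ (D : ℝ) ^ t := by
    intro k hk hkk
    rw [hue, abs_mul]
    by_cases hkt : k - k0 ≤ t
    · have h1 : ∏ i ∈ range t, ((k : ℝ) - k0 - (i + 1)) = 0 := by
        refine prod_eq_zero (i := k - k0 - 1) (mem_range.2 (by omega)) ?_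
        have h2 : ((k - k0 - 1 : ℕ) : ℝ) = (k : ℝ) - k0 - 1 := by
          rw [Nat.cast_sub (by omega), Nat.cast_sub hkk.le, Nat.cast_one]
        rw [h2]
        ring
      rw [h1, abs_zero, zero_mul]
      positivity
    · have hkr : (k : ℝ) - k0 = ((k - k0 : ℕ) : ℝ) := by rw [Nat.cast_sub hkk.le]
      have h1 : |∏ i ∈ range t, ((k : ℝ) - k0 - (i + 1))| ≤ (D : ℝ) ^ t := by
        rw [abs_prod]
        have h2 : ∀ i ∈ range t, |((k : ℝ) - k0 - (i + 1))| ≤ (D : ℝ) := by
          intro i hi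
          rw [mem_range] at hi
          rw [hkr, abs_le]
          have h3 : ((k - k0 : ℕ) : ℝ) ≤ D := by exact_mod_cast (by omega : k - k0 ≤ D)
          have h4 : ((i + 1 : ℕ) : ℝ) ≤ ((k - k0 : ℕ) : ℝ) := by
            exact_mod_cast (by omega : i + 1 ≤ k - k0)
          push_cast at h4
          have h5 : (0 : ℝ) ≤ i := by positivity
          have h6 : (0 : ℝ) ≤ D := by positivity
          constructor <;> linarith
        have h3 := prod_le_prod (fun i _ => abs_nonneg _) h2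
        rwa [prod_const, card_range] at h3
      have h2 : |(Polynomial.Chebyshev.T ℝ (ν : ℤ)).eval (1 + a * (t + 1 - ((k : ℝ) - k0)))| ≤ 1 := by
        refine Polynomial.Chebyshev.abs_eval_T_real_le_one _ ?_
        rw [hkr, abs_le]
        have h3 : ((k - k0 : ℕ) : ℝ) ≤ D := by exact_mod_cast (by omega : k - k0 ≤ D)
        have h4 : ((t + 1 : ℕ) : ℝ) ≤ ((k - k0 : ℕ) : ℝ) := by
          exact_mod_cast (by omega : t + 1 ≤ k - k0)
        push_cast at h4
        constructor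
        · have h5 : a * ((k - k0 : ℕ) : ℝ) ≤ a * D := mul_le_mul_of_nonneg_left h3 ha0
          have h6 : 0 ≤ a * (t + 1) := mul_nonneg ha0 ht0.le
          nlinarith
        · have h5 : 0 ≤ a * (((k - k0 : ℕ) : ℝ) - (t + 1)) := mul_nonneg ha0 (by linarith)
          nlinarith
      calc |∏ i ∈ range t, ((k : ℝ) - k0 - (i + 1))| * |(Polynomial.Chebyshev.T ℝ (ν : ℤ)).eval
            (1 + a * (t + 1 - ((k : ℝ) - k0)))| ≤ (D : ℝ) ^ t * 1 :=
            mul_le_mul h1 h2 (abs_nonneg _) (by positivity)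
        _ = _ := mul_one _
  have hB0 : 0 ≤ B := (abs_nonneg _).trans (hB k0 hk0D)
  have h0 := hmom u hud
  rw [← add_sum_erase _ _ (mem_range.2 (by omega : k0 < D + 1))] at h0
  have h1 : |∑ k ∈ (range (D + 1)).erase k0, (g k : ℝ) * u.eval (k : ℝ)| ≤
      (D : ℝ) ^ (t + 1) * B := by
    refine (abs_sum_le_sum_abs _ _).trans ?_
    have h2 : ∀ k ∈ (range (D + 1)).erase k0, |(g k : ℝ) * u.eval (k : ℝ)| ≤ B * (D : ℝ) ^ t := by
      intro k hk
      rw [mem_erase, mem_range] at hk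
      rcases Nat.lt_or_ge k k0 with h | h
      · rw [hmin k h]
        simp only [Int.cast_zero, zero_mul, abs_zero]
        positivity
      · rw [abs_mul]
        exact mul_le_mul (hB k (by omega)) (huk k (by omega) (by omega)) (abs_nonneg _) hB0
    refine (sum_le_sum h2).trans (le_of_eq ?_)
    rw [sum_const, card_erase_of_mem (mem_range.2 (by omega)), card_range, nsmul_eq_mul,
      Nat.add_sub_cancel]
    ring
  have h2 : (1 : ℝ) ≤ |(g k0 : ℝ)| := by
    have h3 : (1 : ℤ) ≤ |g k0| := Int.one_le_abs hk0g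
    exact_mod_cast h3
  have h3 : |(g k0 : ℝ) * u.eval (k0 : ℝ)| ≤ (D : ℝ) ^ (t + 1) * B := by
    have h4 : (g k0 : ℝ) * u.eval (k0 : ℝ) =
        - ∑ k ∈ (range (D + 1)).erase k0, (g k : ℝ) * u.eval (k : ℝ) := by linarith
    rw [h4, abs_neg]
    exact h1
  rw [abs_mul] at h3
  have h4 : |u.eval (k0 : ℝ)| ≤ |(g k0 : ℝ)| * |u.eval (k0 : ℝ)| :=
    le_mul_of_one_le_left (abs_nonneg _) h2
  linarith

end Pool.Agent.K4H57.FC
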