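import Pool.Agent.K4H57.FC.Poly
import Pool.Agent.K4H57.UH.Num

/-!
# The measure of the sums of the Chern roots
-/

set_option autoImplicit false

open Finset Polynomial

namespace Pool.Agent.K4H57.FC

open Pool.Agent.K4H57.UH

section

variable {r : ℕ} (e : ℕ) (x : Fin r → ℂ) (δ : ℕ → ℕ)

/-- The sum of a subfamily. -/
noncomputable def ss (S : Finset (Fin r)) : ℂ := ∑ i ∈ S, x i

lemma q_pair (g : ℂ → ℂ) : ∑ k ∈ range (r + e + 1), ((qH e r δ).coeff k : ℂ) * g k =
    ∑ l ∈ range (e + 1), (δ l : ℂ) * ∑ S ∈ (univ : Finset (Fin r)).powerset,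
      (-1 : ℂ) ^ S.card * g (l + S.card) := by
  have hq : qH e r δ = ∑ l ∈ range (e + 1), ∑ S ∈ (univ : Finset (Fin r)).powerset,
      C ((δ l : ℤ) * (-1) ^ S.card) * X ^ (l + S.card) := by
    have h1 : ((1 : ℤ[X]) - X) ^ r =
        ∑ S ∈ (univ : Finset (Fin r)).powerset, (-1) ^ S.card * X ^ S.card := by
      have h2 : ((1 : ℤ[X]) - X) ^ r = ∏ _j : Fin r, (1 + -X) := by
        rw [prod_const, card_univ, Fintype.card_fin, sub_eq_add_neg]
      rw [h2, prod_one_add]
      refine sum_congr rfl fun S _ => ?_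
      rw [prod_const, neg_pow]
    rw [qH, h1, mul_sum]
    refine sum_congr rfl fun l _ => ?_
    rw [sum_mul]
    refine sum_congr rfl fun S _ => ?_
    rw [C_mul, C_pow, C_neg, C_1, pow_add]
    ring
  have hc : ∀ k, ((qH e r δ).coeff k : ℂ) = ∑ l ∈ range (e + 1),
      ∑ S ∈ (univ : Finset (Fin r)).powerset,
        if k = l + S.card then (δ l : ℂ) * (-1) ^ S.card else 0 := by
    intro k
    rw [hq, finsetSum_coeff]
    push_cast
    refine sum_congr rfl fun l _ => ?_
    rw [finsetSum_coeff]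
    push_cast
    refine sum_congr rfl fun S _ => ?_
    rw [coeff_C_mul, coeff_X_pow]
    split_ifs
    · push_cast
      ring
    · simp
  simp only [hc, sum_mul]
  rw [sum_comm]
  refine sum_congr rfl fun l hl => ?_
  rw [sum_comm, mul_sum]
  refine sum_congr rfl fun S _ => ?_
  rw [sum_eq_single (l + S.card)]
  · rw [if_pos rfl]
    push_cast
    ring
  · intro k _ hk
    rw [if_neg hk, zero_mul]
  · intro h
    exfalso
    apply h
    rw [mem_range]
    have := card_le_univ S
    rw [Fintype.card_fin] at this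
    rw [mem_range] at hl
    omega

lemma mom_q (N : ℕ) (hm : ∀ m ≤ N, ∑ i ∈ TT r e, cc r δ i * vv x i ^ m = 0) (f : ℂ[X])
    (hf : f.natDegree ≤ N) :
    ∑ S ∈ (univ : Finset (Fin r)).powerset, (-1 : ℂ) ^ S.card * f.eval (ss x S) =
      ∑ k ∈ range (r + e + 1), ((qH e r δ).coeff k : ℂ) * f.eval (k : ℂ) := by
  have h1 : ∑ i ∈ TT r e, cc r δ i * f.eval (vv x i) = 0 := by
    have h2 : ∀ z : ℂ, f.eval z = ∑ m ∈ range (N + 1), f.coeff m * z ^ m :=
      fun z => eval_eq_sum_range' (Nat.lt_succ_of_le hf) z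
    simp only [h2, mul_sum]
    rw [sum_comm]
    refine sum_eq_zero fun m hmr => ?_
    rw [mem_range] at hmr
    have h3 := hm m (by omega)
    have h4 : ∑ i ∈ TT r e, cc r δ i * (f.coeff m * vv x i ^ m) =
        f.coeff m * ∑ i ∈ TT r e, cc r δ i * vv x i ^ m := by
      rw [mul_sum]
      exact sum_congr rfl fun i _ => by ring
    rw [h4, h3, mul_zero]
  rw [sum_fam e x δ fun z => f.eval z, sub_eq_zero] at h1
  rw [q_pair e δ fun z => f.eval z]
  exact h1

/-- The proper nonempty subsets. -/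
def PS (r : ℕ) : Finset (Finset (Fin r)) :=
  ((univ : Finset (Fin r)).powerset.erase ∅).erase univ

lemma card_PS (hr : 1 ≤ r) : (PS r).card + 2 = 2 ^ r := by
  have hne : (univ : Finset (Fin r)) ≠ ∅ := by
    haveI : Nonempty (Fin r) := ⟨⟨0, hr⟩⟩
    exact univ_nonempty.ne_empty
  rw [PS, card_erase_of_mem (by rw [mem_erase]; exact ⟨hne, mem_powerset_self _⟩),
    card_erase_of_mem (empty_mem_powerset _), card_powerset, card_univ, Fintype.card_fin]
  have : 2 ^ 1 ≤ 2 ^ r := Nat.pow_le_pow_right (by norm_num) hr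
  omega

lemma sum_split (hr : 1 ≤ r) {A : Type*} [AddCommMonoid A] (F : Finset (Fin r) → A) :
    ∑ S ∈ (univ : Finset (Fin r)).powerset, F S = F ∅ + (F univ + ∑ S ∈ PS r, F S) := by
  have hne : (univ : Finset (Fin r)) ≠ ∅ := by
    haveI : Nonempty (Fin r) := ⟨⟨0, hr⟩⟩
    exact univ_nonempty.ne_empty
  rw [PS, add_sum_erase _ _ (by rw [mem_erase]; exact ⟨hne, mem_powerset_self _⟩),
    add_sum_erase _ _ (empty_mem_powerset _)]

/-- The coefficients without the trivial subfamilies. -/
noncomputable def gg (r e : ℕ) (δ : ℕ → ℕ) (k : ℕ) : ℤ :=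
  (qH e r δ).coeff k - (if k = 0 then 1 else 0) - (if k = r + e then (-1) ^ r else 0)

/-- The polynomial with the zeros at the sums of the proper subfamilies. -/
noncomputable def Rp : ℂ[X] := ∏ S ∈ PS r, (X - C (ss x S))

lemma eval_Rp (z : ℂ) : (Rp x).eval z = ∏ S ∈ PS r, (z - ss x S) := by
  rw [Rp, eval_prod]
  simp

lemma sum_gg (h : ℕ → ℂ) (hr : 1 ≤ r) : ∑ k ∈ range (r + e + 1), (gg r e δ k : ℂ) * h k =
    ∑ k ∈ range (r + e + 1), ((qH e r δ).coeff k : ℂ) * h k - h 0 - (-1) ^ r * h (r + e) := by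
  have h1 : ∀ k ∈ range (r + e + 1), (gg r e δ k : ℂ) * h k =
      ((qH e r δ).coeff k : ℂ) * h k - (if k = 0 then h 0 else 0) -
        (if k = r + e then (-1) ^ r * h (r + e) else 0) := by
    intro k _
    rw [gg]
    by_cases h2 : k = 0
    · have h3 : k ≠ r + e := by omega
      rw [if_pos h2, if_neg h3, if_pos h2, if_neg h3, h2]
      push_cast
      ring
    · by_cases h3 : k = r + e
      · rw [if_neg h2, if_pos h3, if_neg h2, if_pos h3, h3]
        push_cast
        ring
      · rw [if_neg h2, if_neg h3, if_neg h2, if_neg h3]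
        push_cast
        ring
  rw [sum_congr rfl h1, sum_sub_distrib, sum_sub_distrib, sum_ite_eq' (range (r + e + 1)) 0,
    sum_ite_eq' (range (r + e + 1)) (r + e), if_pos (mem_range.2 (by omega)),
    if_pos (mem_range.2 (by omega))]

/-- The moments of the products with the polynomial. -/
lemma mom_R (hr : 1 ≤ r) (N : ℕ) (hm : ∀ m ≤ N, ∑ i ∈ TT r e, cc r δ i * vv x i ^ m = 0)
    (hsum : ss x univ = ((r + e : ℕ) : ℂ)) (u : ℂ[X]) (hu : u.natDegree + 2 ^ r ≤ N + 2) :
    ∑ k ∈ range (r + e + 1), (gg r e δ k : ℂ) * ((Rp x).eval (k : ℂ) * u.eval (k : ℂ)) = 0 := by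
  have hdeg : (Rp x * u).natDegree ≤ N := by
    refine natDegree_mul_le.trans ?_
    have h1 : (Rp x).natDegree ≤ (PS r).card := by
      rw [Rp]
      refine (natDegree_prod_le _ _).trans ?_
      simp
    have h2 := card_PS (r := r) hr
    omega
  have h1 := mom_q e x δ N hm (Rp x * u) hdeg
  rw [sum_split hr] at h1
  have h2 : ∀ S ∈ PS r, (-1 : ℂ) ^ S.card * (Rp x * u).eval (ss x S) = 0 := by
    intro S hS
    rw [eval_mul, eval_Rp, prod_eq_zero hS (sub_self _), zero_mul, mul_zero]
  rw [sum_eq_zero h2, add_zero, card_empty, pow_zero, one_mul, card_univ, Fintype.card_fin,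
    hsum] at h1
  have h3 : ss x ∅ = 0 := by simp [ss]
  rw [h3] at h1
  rw [sum_gg e δ (fun k => (Rp x).eval (k : ℂ) * u.eval (k : ℂ)) hr]
  simp only [eval_mul] at h1
  rw [← h1, Nat.cast_zero]
  ring

/-- All the integral numbers vanish, if they are small. -/
theorem all_zero (hr : 1 ≤ r) (N : ℕ) (hm : ∀ m ≤ N, ∑ i ∈ TT r e, cc r δ i * vv x i ^ m = 0)
    (hsum : ss x univ = ((r + e : ℕ) : ℂ)) (ρ : ℕ → ℤ)
    (hρ : ∀ k : ℕ, ∏ S ∈ PS r, ((k : ℂ) - ss x S) = ρ k) (hN : 2 ^ r ≤ N + 2) (B : ℕ)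
    (hB : ∀ k ≤ r + e, (gg r e δ k * ρ k).natAbs ≤ B)
    (h : B * (r + e + 1) ^ (r + e + 1 - (N + 3 - 2 ^ r)) < 2 ^ (N + 3 - 2 ^ r)) :
    ∀ k ≤ r + e, gg r e δ k * ρ k = 0 := by
  set G : ℤ[X] := ∑ k ∈ range (r + e + 1), C (gg r e δ k * ρ k) * X ^ k with hG
  have hcoeff : ∀ k, G.coeff k = if k ≤ r + e then gg r e δ k * ρ k else 0 := by
    intro k
    rw [hG, finsetSum_coeff]
    simp only [coeff_C_mul, coeff_X_pow, mul_ite, mul_one, mul_zero]
    rw [sum_ite_eq (range (r + e + 1)) k]
    simp only [mem_range, Nat.lt_succ_iff]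
  have hdeg : G.natDegree ≤ r + e := by
    refine natDegree_sum_le_of_forall_le _ _ fun l hl => ?_
    rw [mem_range] at hl
    refine (natDegree_C_mul_X_pow_le _ _).trans ?_
    omega
  have hdvd := dvd_of_moments G (r + e) (N + 3 - 2 ^ r) hdeg fun u hu => by
    have h1 := mom_R e x δ hr N hm hsum u (by omega)
    rw [← h1]
    refine sum_congr rfl fun k hk => ?_
    rw [mem_range] at hk
    rw [hcoeff, if_pos (by omega), eval_Rp, hρ]
    push_cast
    ring
  have h0 := eq_zero_of_small G (r + e) (N + 3 - 2 ^ r) B hdeg hdvd (fun k => by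
    rw [hcoeff]
    split_ifs with hk
    · exact hB k hk
    · simp) h
  intro k hk
  have h1 := hcoeff k
  rw [h0, coeff_zero, if_pos hk] at h1
  exact h1.symm

/-- The two measures agree. -/
theorem measure_eq (hr : 1 ≤ r) (N : ℕ) (hm : ∀ m ≤ N, ∑ i ∈ TT r e, cc r δ i * vv x i ^ m = 0)
    (hsum : ss x univ = ((r + e : ℕ) : ℂ)) (ρ : ℕ → ℤ)
    (hρ : ∀ k : ℕ, ∏ S ∈ PS r, ((k : ℂ) - ss x S) = ρ k) (hN : 2 ^ r ≤ N + 2)
    (h0 : ∀ k ≤ r + e, gg r e δ k * ρ k = 0) (z : ℂ) :
    ∑ S ∈ (univ : Finset (Fin r)).powerset, (if ss x S = z then (-1 : ℂ) ^ S.card else 0) =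
      ∑ k ∈ range (r + e + 1), if (k : ℂ) = z then ((qH e r δ).coeff k : ℂ) else 0 := by
  classical
  set Lam : Finset ℂ := (PS r).image (ss x) with hLam
  have hcard : Lam.card ≤ N := by
    have h1 : Lam.card ≤ (PS r).card := card_image_le
    have h2 := card_PS (r := r) hr
    omega
  have hs0 : ss x ∅ = 0 := by simp [ss]
  set ν : ℂ → ℂ := fun w =>
    ∑ S ∈ (univ : Finset (Fin r)).powerset, (if ss x S = w then (-1 : ℂ) ^ S.card else 0) -
      ∑ k ∈ range (r + e + 1), (if (k : ℂ) = w then ((qH e r δ).coeff k : ℂ) else 0) with hν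
  -- outside of `Lam`
  have hout : ∀ w, w ∉ Lam → ν w = 0 := by
    intro w hw
    have h1 : ∀ S ∈ PS r, (if ss x S = w then (-1 : ℂ) ^ S.card else 0) = 0 := by
      intro S hS
      rw [if_neg]
      rintro rfl
      exact hw (mem_image_of_mem _ hS)
    show _ - _ = (0 : ℂ)
    rw [sum_split hr, sum_eq_zero h1, add_zero, hs0, hsum, card_empty, pow_zero, card_univ,
      Fintype.card_fin]
    have h2 := sum_gg e δ (fun k => if (k : ℂ) = w then (1 : ℂ) else 0) hr
    have h3 : ∑ k ∈ range (r + e + 1), (gg r e δ k : ℂ) * (if (k : ℂ) = w then (1 : ℂ) else 0) =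
        0 := by
      refine sum_eq_zero fun k hk => ?_
      rw [mem_range] at hk
      split_ifs with hkw
      · have h4 : ρ k ≠ 0 := by
          intro h5
          have h6 := hρ k
          rw [h5, Int.cast_zero, prod_eq_zero_iff] at h6
          obtain ⟨S, hS, hS2⟩ := h6
          apply hw
          rw [← hkw, sub_eq_zero.1 hS2]
          exact mem_image_of_mem _ hS
        have h5 := (mul_eq_zero.1 (h0 k (by omega))).resolve_right h4
        rw [h5]
        simp
      · rw [mul_zero]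
    rw [h3] at h2
    have h4 : ∀ k ∈ range (r + e + 1), ((qH e r δ).coeff k : ℂ) *
        (if (k : ℂ) = w then (1 : ℂ) else 0) =
          if (k : ℂ) = w then ((qH e r δ).coeff k : ℂ) else 0 := by
      intro k _
      split_ifs <;> simp
    rw [sum_congr rfl h4] at h2
    have h5 : ((0 : ℂ) = w ↔ ((0 : ℕ) : ℂ) = w) := by rw [Nat.cast_zero]
    have h6 : (if (0 : ℂ) = w then (1 : ℂ) else 0) = if ((0 : ℕ) : ℂ) = w then (1 : ℂ) else 0 := by
      rw [Nat.cast_zero]
    have h7 : (if ((r + e : ℕ) : ℂ) = w then (-1 : ℂ) ^ r else 0) =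
        (-1) ^ r * (if ((r + e : ℕ) : ℂ) = w then (1 : ℂ) else 0) := by
      split_ifs <;> simp
    rw [h6, h7]
    linear_combination h2
  have hkey : ν z = 0 := by
    by_cases hz : z ∈ Lam
    · set f : ℂ[X] := ∏ w ∈ Lam.erase z, (X - C w) with hf
      have hfdeg : f.natDegree ≤ N := by
        rw [hf]
        refine (natDegree_prod_le _ _).trans ?_
        simp only [natDegree_X_sub_C, sum_const, smul_eq_mul, mul_one]
        rw [card_erase_of_mem hz]
        omega
      have h1 := mom_q e x δ N hm f hfdeg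
      set U : Finset ℂ := (univ : Finset (Fin r)).powerset.image (ss x) ∪
        (range (r + e + 1)).image (fun k : ℕ => (k : ℂ)) with hU
      have h2 : ∑ S ∈ (univ : Finset (Fin r)).powerset, (-1 : ℂ) ^ S.card * f.eval (ss x S) =
          ∑ w ∈ U, (∑ S ∈ (univ : Finset (Fin r)).powerset,
            (if ss x S = w then (-1 : ℂ) ^ S.card else 0)) * f.eval w := by
        simp only [sum_mul]
        rw [sum_comm]
        refine sum_congr rfl fun S hS => ?_
        rw [sum_eq_single (ss x S)]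
        · rw [if_pos rfl]
        · intro w _ hw
          rw [if_neg (fun h => hw h.symm), zero_mul]
        · intro h
          exact absurd (mem_union_left _ (mem_image_of_mem _ hS)) h
      have h3 : ∑ k ∈ range (r + e + 1), ((qH e r δ).coeff k : ℂ) * f.eval (k : ℂ) =
          ∑ w ∈ U, (∑ k ∈ range (r + e + 1),
            (if (k : ℂ) = w then ((qH e r δ).coeff k : ℂ) else 0)) * f.eval w := by
        simp only [sum_mul]
        rw [sum_comm]
        refine sum_congr rfl fun k hk => ?_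
        rw [sum_eq_single ((k : ℕ) : ℂ)]
        · rw [if_pos rfl]
        · intro w _ hw
          rw [if_neg (fun h => hw h.symm), zero_mul]
        · intro h
          exact absurd (mem_union_right _ (mem_image_of_mem _ hk)) h
      rw [h2, h3, ← sub_eq_zero, ← sum_sub_distrib] at h1
      have h4 : ∀ w ∈ U, (∑ S ∈ (univ : Finset (Fin r)).powerset,
            (if ss x S = w then (-1 : ℂ) ^ S.card else 0)) * f.eval w -
          (∑ k ∈ range (r + e + 1),
            (if (k : ℂ) = w then ((qH e r δ).coeff k : ℂ) else 0)) * f.eval w =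
          ν w * f.eval w := by
        intro w _
        rw [← sub_mul]
      rw [sum_congr rfl h4, sum_eq_single z] at h1
      · have h5 : f.eval z ≠ 0 := by
          rw [hf, eval_prod, prod_ne_zero_iff]
          intro w hw
          rw [eval_sub, eval_X, eval_C, sub_ne_zero]
          exact (ne_of_mem_erase hw).symm
        exact (mul_eq_zero.1 h1).resolve_right h5
      · intro w _ hwz
        by_cases hw : w ∈ Lam
        · have h5 : f.eval w = 0 := by
            rw [hf, eval_prod, prod_eq_zero (mem_erase.2 ⟨hwz, hw⟩) (by simp)]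
          rw [h5, mul_zero]
        · rw [hout w hw, zero_mul]
      · intro h5
        exfalso
        apply h5
        obtain ⟨S, _, hS2⟩ := mem_image.1 hz
        rw [← hS2]
        exact mem_union_left _ (mem_image_of_mem _ (by rw [mem_powerset]; exact subset_univ _))
    · exact hout z hz
  exact sub_eq_zero.1 hkey

end

end Pool.Agent.K4H57.FC
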