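import Pool.Agent.K4H57.FC.Bd
import Pool.Agent.K4H57.FC.Bd2
import Pool.Agent.K4H57.FC.Cheb

/-!
# Fano and Calabi-Yau varieties, of any codimension
-/

set_option autoImplicit false

open Finset Polynomial

namespace Pool.Agent.K4H57.FC

open Pool.Agent.K4H57.UH Pool.Agent.R920.CH Pool.Agent.K4H57.CI Pool.Agent.K4H57.UN

/-- The degree is the sum of the `δ l`. -/
lemma deg_norm' {r : ℕ} (e : ℕ) (x : Fin r → ℂ) (δ : ℕ → ℕ)
    (hm : ∑ i ∈ TT r e, cc r δ i * vv x i ^ r = 0) :
    ∏ j, ‖x j‖ = ∑ l ∈ range (e + 1), (δ l : ℝ) := by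
  have h1 := deg_fam e x δ 0 hm
  have h2 : ‖∏ j, x j‖ = ‖∑ l ∈ range (e + 1), (δ l : ℂ)‖ := by rw [h1]
  rw [norm_prod] at h2
  rw [h2]
  have h3 : ∑ l ∈ range (e + 1), (δ l : ℂ) = ((∑ l ∈ range (e + 1), δ l : ℕ) : ℂ) := by
    push_cast; rfl
  rw [h3, Complex.norm_natCast]
  push_cast
  rfl

/-- The bound for the coefficients of the numerator. -/
lemma q_bound (r e : ℕ) (δ : ℕ → ℕ) (k : ℕ) (hk : k ≤ r + e) (D : ℝ)
    (hD : ∑ l ∈ range (e + 1), (δ l : ℝ) ≤ D) :
    |((qH e r δ).coeff k : ℝ)| ≤ 2 ^ r * D := by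
  classical
  have h1 := q_pair (r := r) e δ (fun z => if z = (k : ℂ) then (1 : ℂ) else 0)
  have h2 : ∑ k' ∈ range (r + e + 1), ((qH e r δ).coeff k' : ℂ) *
      (if (k' : ℂ) = (k : ℂ) then (1 : ℂ) else 0) = ((qH e r δ).coeff k : ℂ) := by
    rw [sum_eq_single k]
    · rw [if_pos rfl, mul_one]
    · intro k' _ hk'
      rw [if_neg (by exact_mod_cast hk'), mul_zero]
    · intro h
      exact absurd (mem_range.2 (by omega)) h
  rw [h2] at h1
  have h3 : ‖((qH e r δ).coeff k : ℂ)‖ ≤ 2 ^ r * D := by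
    rw [h1]
    refine (norm_sum_le _ _).trans ?_
    have h4 : ∀ l ∈ range (e + 1), ‖(δ l : ℂ) * ∑ S ∈ (univ : Finset (Fin r)).powerset,
        (-1 : ℂ) ^ S.card * (if ((l : ℂ) + S.card) = (k : ℂ) then (1 : ℂ) else 0)‖ ≤
        2 ^ r * (δ l : ℝ) := by
      intro l _
      rw [norm_mul, Complex.norm_natCast, mul_comm]
      refine mul_le_mul_of_nonneg_right ?_ (by positivity)
      refine (norm_sum_le _ _).trans ?_
      have h5 : ∀ S ∈ (univ : Finset (Fin r)).powerset, ‖(-1 : ℂ) ^ S.card *
          (if ((l : ℂ) + S.card) = (k : ℂ) then (1 : ℂ) else 0)‖ ≤ (1 : ℝ) := by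
        intro S _
        rw [norm_mul, norm_pow, norm_neg, norm_one, one_pow, one_mul]
        split_ifs <;> simp
      refine (sum_le_sum h5).trans ?_
      rw [sum_const, card_powerset, card_univ, Fintype.card_fin, nsmul_eq_mul, mul_one]
      push_cast
      exact le_refl _
    refine (sum_le_sum h4).trans ?_
    rw [← mul_sum]
    exact mul_le_mul_of_nonneg_left hD (by positivity)
  have h4 : ((qH e r δ).coeff k : ℂ) = (((qH e r δ).coeff k : ℝ) : ℂ) := by push_cast; rfl
  rw [h4, Complex.norm_real, Real.norm_eq_abs] at h3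
  exact h3

/-- The coefficients of the product `∏ (1 - z ^ κ j)`. -/
lemma coeff_q0 {r : ℕ} (κ : Fin r → ℕ) (i : ℕ) : ((q0 κ).coeff i : ℂ) =
    ∑ S ∈ (univ : Finset (Fin r)).powerset, if ∑ j ∈ S, κ j = i then (-1 : ℂ) ^ S.card else 0 := by
  have h1 : q0 κ = ∑ S ∈ (univ : Finset (Fin r)).powerset,
      C ((-1 : ℤ) ^ S.card) * X ^ (∑ j ∈ S, κ j) := by
    have h2 : q0 κ = ∏ j : Fin r, (1 + -X ^ κ j) := by
      rw [q0]
      refine prod_congr rfl fun j _ => ?_
      rw [sub_eq_add_neg]
    rw [h2, prod_one_add]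
    refine sum_congr rfl fun S _ => ?_
    rw [prod_neg, prod_pow_eq_pow_sum]
    simp
  rw [h1, finsetSum_coeff]
  push_cast
  refine sum_congr rfl fun S _ => ?_
  rw [coeff_C_mul, coeff_X_pow]
  by_cases h : ∑ j ∈ S, κ j = i
  · rw [if_pos h, if_pos h.symm]
    push_cast
    ring
  · rw [if_neg h, if_neg (fun h' => h h'.symm)]
    simp

/-- **Fano and Calabi-Yau varieties, any codimension.** -/
theorem fano_cy (n r : ℕ) (hr : 1 ≤ r) (c : ℕ → ℤ) (h0 : c 0 = 1)
    (hpos : ∀ i ≤ r, 0 ≤ c i) (hle : ∀ i ≤ r, c i ≤ c 1 ^ i) (e : ℕ) (hee : c 1 = e)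
    (δ : ℕ → ℕ) (hH : HilbertNumerator n r (chernPoly r c) e δ)
    (hN : (30 * r * 2 ^ r ≤ n + r ∧
        (e ≤ n + 1 ∨ (e + r + 1) ^ (10 * (e - n)) ≤ 2 ^ (n + r))) ∨
      3 * (√((2 : ℝ) ^ r * (e + 2 ^ (r + 2))) * Real.log (6 * r * (e + 2 ^ (r + 2)))) ≤ n + r) :
    ∃ a : Multiset ℤ, (∀ x ∈ a, 1 ≤ x) ∧ Multiset.card a = r ∧
      chernPoly r c = (a.map fun x => X - C x).prod ∧
      (1 - X) ^ r * ∑ l ∈ range (e + 1), C (δ l : ℤ) * X ^ l =
        (a.map fun x => (1 - X ^ x.toNat : ℤ[X])).prod := by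
  classical
  obtain ⟨hM, hD⟩ := chernPoly_monic r c h0
  obtain ⟨hcard, hnorm, hne, -⟩ := root_facts r hr c h0 hpos hle e hee
  obtain ⟨x, hx'⟩ := exists_fun (rootsOf (chernPoly r c)) (r := r) hcard
  have hx := hx'.symm
  have hxmem : ∀ j, x j ∈ rootsOf (chernPoly r c) := fun j => by
    rw [hx]
    exact Multiset.mem_map_of_mem _ (mem_univ j)
  set A : ℕ := r + e with hA
  set N : ℕ := n + r with hNdef
  have hTN : 2 ^ r ≤ N := by
    rcases hN with ⟨hN, -⟩ | hN
    · have h1 : 1 * 2 ^ r ≤ 30 * r * 2 ^ r := Nat.mul_le_mul_right _ (by omega)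
      omega
    · exact (numeric_cheb n r e hr hN).1
  have hrT : r < 2 ^ r := Nat.lt_two_pow_self
  have hm : ∀ m ≤ N, ∑ i ∈ TT r e, cc r δ i * vv x i ^ m = 0 := fun m hm =>
    fam_of (chernPoly r c) δ hH x hx m hm
  have hxn : ∀ j, ‖x j‖ ≤ 2 * e + 1 := fun j => hnorm _ (hxmem j)
  have hsum : ss x univ = ((r + e : ℕ) : ℂ) := by
    have h1 := sum_roots r hr c h0
    rw [hx, hee] at h1
    push_cast
    push_cast at h1
    rw [← h1]
    rfl
  obtain ⟨ρ, hρ⟩ := prod_int (chernPoly r c) hM r hD x hx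
  have hA1 : 1 ≤ A := by omega
  have hA1' : (1 : ℝ) ≤ A := by exact_mod_cast hA1
  -- the bound for the degree
  have hdeg : ∑ l ∈ range (e + 1), (δ l : ℝ) ≤ (2 * A : ℝ) ^ r := by
    rw [← deg_norm' e x δ (hm r (by omega))]
    refine (prod_le_prod (fun _ _ => norm_nonneg _) fun j _ => hxn j).trans ?_
    rw [prod_const, card_univ, Fintype.card_fin]
    refine pow_le_pow_left₀ (by positivity) ?_ r
    have h1 : 2 * e + 1 ≤ 2 * A := by omega
    exact_mod_cast h1
  have hgg : ∀ k ≤ r + e, |(gg r e δ k : ℝ)| ≤ (4 * A) ^ r + 2 := by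
    intro k hk
    have h1 := q_bound r e δ k hk _ hdeg
    have h2 : (2 : ℝ) ^ r * (2 * A) ^ r = (4 * A) ^ r := by
      rw [← mul_pow]
      congr 1
      ring
    rw [h2] at h1
    rw [gg]
    push_cast
    have h3 : |(if k = 0 then (1 : ℝ) else 0)| ≤ 1 := by split_ifs <;> simp
    have h4 : |(if k = r + e then (-1 : ℝ) ^ r else 0)| ≤ 1 := by
      split_ifs
      · rw [abs_pow, abs_neg, abs_one, one_pow]
      · simp
    calc |((qH e r δ).coeff k : ℝ) - (if k = 0 then (1 : ℝ) else 0) -
          (if k = r + e then (-1 : ℝ) ^ r else 0)| ≤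
          |((qH e r δ).coeff k : ℝ)| + |(if k = 0 then (1 : ℝ) else 0)| +
          |(if k = r + e then (-1 : ℝ) ^ r else 0)| := by
            refine (abs_sub _ _).trans ?_
            gcongr
            exact abs_sub _ _
      _ ≤ _ := by linarith
  have hρb : ∀ k ≤ r + e, |(ρ k : ℝ)| ≤ ((2 * r + 1) * A) ^ (2 ^ r - 2) := by
    intro k hk
    have h1 : ‖((ρ k : ℤ) : ℂ)‖ = |(ρ k : ℝ)| := by
      have h4 : ((ρ k : ℤ) : ℂ) = ((ρ k : ℝ) : ℂ) := by push_cast; rfl
      rw [h4, Complex.norm_real, Real.norm_eq_abs]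
    rw [← h1, ← hρ, norm_prod]
    have h2 : ∀ S ∈ PS r, ‖(k : ℂ) - ss x S‖ ≤ (2 * r + 1) * A := by
      intro S _
      refine (norm_sub_le _ _).trans ?_
      have h3 : ‖ss x S‖ ≤ r * (2 * A) := by
        rw [ss]
        refine (norm_sum_le _ _).trans ?_
        have h4 : ∀ i ∈ S, ‖x i‖ ≤ (2 * A : ℝ) := by
          intro i _
          refine (hxn i).trans ?_
          have h1 : 2 * e + 1 ≤ 2 * A := by omega
          exact_mod_cast h1
        refine (sum_le_sum h4).trans ?_
        rw [sum_const, nsmul_eq_mul]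
        refine mul_le_mul_of_nonneg_right ?_ (by positivity)
        have h5 := card_le_univ S
        rw [Fintype.card_fin] at h5
        exact_mod_cast h5
      rw [Complex.norm_natCast]
      have h4 : (k : ℝ) ≤ A := by exact_mod_cast hk
      nlinarith
    have h3 := prod_le_prod (s := PS r) (fun _ _ => norm_nonneg _) h2
    rw [prod_const] at h3
    have h4 : (PS r).card = 2 ^ r - 2 := by
      have := card_PS (r := r) hr
      omega
    rwa [h4] at h3
  have hz : ∀ k ≤ r + e, gg r e δ k * ρ k = 0 := by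
    have hbd : ∀ k ≤ r + e, |(gg r e δ k : ℝ)| * |(ρ k : ℝ)| ≤
        (((4 * (r + e : ℕ)) ^ r + 2) * ((2 * r + 1) * (r + e : ℕ)) ^ (2 ^ r - 2) : ℝ) := by
      intro k hk
      have h3 := hgg k hk
      have h4 := hρb k hk
      rw [hA] at h3 h4
      exact mul_le_mul h3 h4 (abs_nonneg _) (by positivity)
    rcases hN with ⟨hN, hk⟩ | hN
    · refine all_zero e x δ hr N hm hsum ρ hρ (by omega)
        (((4 * (r + e)) ^ r + 2) * ((2 * r + 1) * (r + e)) ^ (2 ^ r - 2)) (by
          intro k hk
          have h1 : ((gg r e δ k * ρ k).natAbs : ℝ) = |(gg r e δ k : ℝ)| * |(ρ k : ℝ)| := by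
            rw [← abs_mul, ← Int.cast_mul, Nat.cast_natAbs, Int.cast_abs]
          have h2 : ((gg r e δ k * ρ k).natAbs : ℝ) ≤
              ((((4 * (r + e)) ^ r + 2) * ((2 * r + 1) * (r + e)) ^ (2 ^ r - 2) : ℕ) : ℝ) := by
            rw [h1]
            refine (hbd k hk).trans (le_of_eq ?_)
            push_cast
            rfl
          exact_mod_cast h2) (numeric n r e hr hN hk)
    · obtain ⟨-, D, ν, θ, hD1, hD2, hD3, hD4⟩ := numeric_cheb n r e hr hN
      have h1 := zero_of_cheb D (fun k => if k ≤ r + e then gg r e δ k * ρ k else 0)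
        (N + 2 - 2 ^ r) (by
          intro u hu
          have h2 := mom_R e x δ hr N hm hsum (u.map (algebraMap ℝ ℂ)) (by
            rw [natDegree_map]
            omega)
          have h3 : ∀ k : ℕ, (u.map (algebraMap ℝ ℂ)).eval (k : ℂ) = ((u.eval (k : ℝ) : ℝ) : ℂ) := by
            intro k
            rw [eval_natCast_map]
            rfl
          have h4 : ((∑ k ∈ range (D + 1), (((if k ≤ r + e then gg r e δ k * ρ k else 0 : ℤ)) : ℝ) *
              u.eval (k : ℝ) : ℝ) : ℂ) = 0 := by
            rw [← h2]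
            push_cast
            rw [← sum_subset (range_subset_range.2 (by omega : r + e + 1 ≤ D + 1))]
            · refine sum_congr rfl fun k hk => ?_
              rw [mem_range] at hk
              rw [if_pos (by omega), h3, eval_Rp, hρ]
              push_cast
              ring
            · intro k _ hk
              rw [mem_range] at hk
              rw [if_neg (by omega)]
              simp
          exact_mod_cast h4)
        (((4 * (r + e : ℕ)) ^ r + 2) * ((2 * r + 1) * (r + e : ℕ)) ^ (2 ^ r - 2)) (by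
          intro k _
          split_ifs with hk
          · push_cast
            rw [abs_mul]
            have := hbd k hk
            push_cast at this
            exact this
          · simp only [Int.cast_zero, abs_zero]
            positivity) (2 ^ r - 2) ν (by omega) θ hD3 hD4
      intro k hk
      have h2 := h1 k (by omega)
      simp only [if_pos hk] at h2
      exact h2
  have hmeas := measure_eq e x δ hr N hm hsum ρ hρ (by omega) hz
  -- the roots are integers
  have hint : ∀ y ∈ rootsOf (chernPoly r c), ∃ a : ℤ, y = a := by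
    refine int_of_support _ hne fun y hy => ?_
    have h1 : ((rootsOf (chernPoly r c)).powerset.filter fun S => S.sum = y).map
        (fun S => (-1 : ℂ) ^ Multiset.card S) = ((rootsOf (chernPoly r c)).powerset.filter
          fun S => S.sum = y).map (fun S => if S.sum = y then (-1 : ℂ) ^ Multiset.card S else 0) := by
      refine Multiset.map_congr rfl fun S hS => ?_
      rw [if_pos (Multiset.mem_filter.1 hS).2]
    have h2 : (((rootsOf (chernPoly r c)).powerset.filter fun S => S.sum = y).map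
        (fun S => if S.sum = y then (-1 : ℂ) ^ Multiset.card S else 0)).sum =
        ((rootsOf (chernPoly r c)).powerset.map
        (fun S => if S.sum = y then (-1 : ℂ) ^ Multiset.card S else 0)).sum := by
      have h3 : ((rootsOf (chernPoly r c)).powerset.map
        (fun S => if S.sum = y then (-1 : ℂ) ^ Multiset.card S else 0)).sum =
        (((rootsOf (chernPoly r c)).powerset.filter fun S => S.sum = y).map
          (fun S => if S.sum = y then (-1 : ℂ) ^ Multiset.card S else 0)).sum +
        (((rootsOf (chernPoly r c)).powerset.filter fun S => ¬ S.sum = y).map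
          (fun S => if S.sum = y then (-1 : ℂ) ^ Multiset.card S else 0)).sum := by
        rw [← Multiset.sum_add, ← Multiset.map_add, Multiset.filter_add_not]
      rw [h3]
      have h4 : (((rootsOf (chernPoly r c)).powerset.filter fun S => ¬ S.sum = y).map
          (fun S => if S.sum = y then (-1 : ℂ) ^ Multiset.card S else 0)).sum = 0 := by
        refine Multiset.sum_eq_zero fun w hw => ?_
        obtain ⟨S, hS, rfl⟩ := Multiset.mem_map.1 hw
        rw [if_neg (Multiset.mem_filter.1 hS).2]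
      rw [h4, add_zero]
    rw [h1, h2, hx, sum_powerset_fin]
    have h3 := hmeas y
    have h4 : ∑ k ∈ range (r + e + 1), (if (k : ℂ) = y then ((qH e r δ).coeff k : ℂ) else 0) =
        0 := by
      refine sum_eq_zero fun k _ => ?_
      rw [if_neg]
      rintro rfl
      exact hy ⟨k, by push_cast; rfl⟩
    rw [h4] at h3
    refine Eq.trans (sum_congr rfl fun S _ => ?_) h3
    rw [Multiset.card_map]
    rfl
  obtain ⟨a, ha⟩ := splits_of (chernPoly r c) hM hint
  have ha1 : ∀ z ∈ a, 1 ≤ z := by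
    intro z hz
    apply root_pos r c h0 hpos
    rw [ha, eval_multiset_prod, Multiset.prod_eq_zero_iff, Multiset.map_map, Multiset.mem_map]
    exact ⟨z, hz, by simp⟩
  have hacard : Multiset.card a = r := by
    have h1 := congrArg natDegree ha
    rw [hD] at h1
    rw [h1]
    have h2 := natDegree_multiset_prod_X_sub_C_eq_card a
    exact h2.symm
  refine ⟨a, ha1, hacard, ha, ?_⟩
  -- the Hilbert series
  obtain ⟨b, hb⟩ := exists_fun a (r := r) hacard
  set κ : Fin r → ℕ := fun j => (b j).toNat with hκ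
  have hb1 : ∀ j, 1 ≤ b j := fun j => ha1 _ (by
    rw [← hb]
    exact Multiset.mem_map_of_mem _ (mem_univ j))
  have hκb : ∀ j, ((κ j : ℕ) : ℤ) = b j := fun j => Int.toNat_of_nonneg (by have := hb1 j; omega)
  have hroots : rootsOf (chernPoly r c) = univ.val.map fun j => (b j : ℂ) := by
    have h1 : (chernPoly r c).map (Int.castRingHom ℂ) =
        ((univ.val.map fun j => (b j : ℂ)).map fun z => X - C z).prod := by
      rw [ha, ← hb, Polynomial.map_multiset_prod, Multiset.map_map, Multiset.map_map,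
        Multiset.map_map]
      congr 1
      refine Multiset.map_congr rfl fun j _ => ?_
      simp
    rw [rootsOf, h1, roots_multiset_prod_X_sub_C]
  have hsame : ∀ F : Multiset ℂ → ℂ, ∑ T ∈ (univ : Finset (Fin r)).powerset, F (T.val.map x) =
      ∑ T ∈ (univ : Finset (Fin r)).powerset, F (T.val.map fun j => (b j : ℂ)) := by
    intro F
    rw [← sum_powerset_fin, ← sum_powerset_fin, ← hx, hroots]
  have hq : qH e r δ = q0 κ := by
    ext i
    have h1 := hmeas (i : ℂ)
    have h2 : ∑ k ∈ range (r + e + 1), (if (k : ℂ) = (i : ℂ) then ((qH e r δ).coeff k : ℂ)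
        else 0) = ((qH e r δ).coeff i : ℂ) := by
      by_cases hi : i ≤ r + e
      · rw [sum_eq_single i]
        · rw [if_pos rfl]
        · intro k _ hk
          rw [if_neg (by exact_mod_cast hk)]
        · intro h
          exact absurd (mem_range.2 (by omega)) h
      · rw [coeff_eq_zero_of_natDegree_lt (lt_of_le_of_lt (deg_qH e r δ) (by omega))]
        refine (sum_eq_zero fun k hk => ?_).trans (by simp)
        rw [mem_range] at hk
        rw [if_neg]
        intro h
        have : k = i := by exact_mod_cast h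
        omega
    have h3 : ∑ S ∈ (univ : Finset (Fin r)).powerset,
        (if ss x S = (i : ℂ) then (-1 : ℂ) ^ S.card else 0) =
        ∑ S ∈ (univ : Finset (Fin r)).powerset,
          if ∑ j ∈ S, κ j = i then (-1 : ℂ) ^ S.card else 0 := by
      have h4 := hsame fun M => if M.sum = (i : ℂ) then (-1 : ℂ) ^ Multiset.card M else 0
      simp only [Multiset.card_map] at h4
      refine Eq.trans h4 (sum_congr rfl fun S _ => ?_)
      have h5 : (S.val.map fun j => (b j : ℂ)).sum = ((∑ j ∈ S, κ j : ℕ) : ℂ) := by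
        show ∑ j ∈ S, (b j : ℂ) = _
        push_cast
        refine sum_congr rfl fun j _ => ?_
        rw [← hκb]
        push_cast
        rfl
      rw [h5]
      simp only [Nat.cast_inj]
      rfl
    rw [h2, h3, ← coeff_q0] at h1
    exact_mod_cast h1.symm
  rw [qH, q0] at hq
  rw [hq, ← hb, Multiset.map_map]
  rfl

end Pool.Agent.K4H57.FC
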