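import Mathlib

/-!
# Integral polynomials with small coefficients and a zero of high order at `1`
-/

set_option autoImplicit false

open Polynomial Finset

namespace Pool.Agent.K4H57.FC

lemma coeff_comp_add (G : ℤ[X]) (D : ℕ) (hD : G.natDegree ≤ D) (t : ℤ) (j : ℕ) :
    (G.comp (X + C t)).coeff j =
      ∑ k ∈ range (D + 1), G.coeff k * (t ^ (k - j) * (k.choose j : ℤ)) := by
  rw [comp, eval₂_eq_sum_range' C (Nat.lt_succ_of_le hD), finset_sum_coeff]
  refine sum_congr rfl fun k _ => ?_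
  rw [coeff_C_mul, coeff_X_add_C_pow]

lemma choose_le_pow' (k a : ℕ) : k.choose a ≤ k ^ a := by
  have h1 := Nat.choose_le_descFactorial k a
  exact h1.trans (Nat.descFactorial_le_pow k a)

/-- An integral polynomial of degree at most `D`, divisible by `(X - 1) ^ m`, with coefficients
smaller than `2 ^ m / (D + 1) ^ (D + 1 - m)`, is `0`. -/
theorem eq_zero_of_small (G : ℤ[X]) (D m B : ℕ) (hD : G.natDegree ≤ D) (hm : (X - 1) ^ m ∣ G)
    (hB : ∀ k, (G.coeff k).natAbs ≤ B) (h : B * (D + 1) ^ (D + 1 - m) < 2 ^ m) : G = 0 := by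
  by_contra hG
  obtain ⟨Q, hQ⟩ := hm
  have hQ0 : Q ≠ 0 := by
    rintro rfl
    exact hG (by rw [hQ, mul_zero])
  have hX1 : ((X : ℤ[X]) - 1) ^ m ≠ 0 := pow_ne_zero _ (by
    have := X_sub_C_ne_zero (1 : ℤ)
    simpa using this)
  have hmon : ((X : ℤ[X]) - 1).Monic := by
    have := monic_X_sub_C (1 : ℤ)
    simpa using this
  have hdegX : (((X : ℤ[X]) - 1) ^ m).natDegree = m := by
    rw [hmon.natDegree_pow]
    have : ((X : ℤ[X]) - 1).natDegree = 1 := by
      have := natDegree_X_sub_C (1 : ℤ)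
      simpa using this
    rw [this, mul_one]
  have hdegQ : m + Q.natDegree ≤ D := by
    rw [hQ, natDegree_mul hX1 hQ0, hdegX] at hD
    exact hD
  set Q' : ℤ[X] := Q.comp (X + C (-1)) with hQ'
  set U : ℤ[X] := (X + C (-2)) ^ m with hU
  have hT : G.comp (X + C (-1)) = U * Q' := by
    rw [hQ, mul_comp, pow_comp, sub_comp, X_comp, one_comp, hU]
    congr 2
    have : (C (-2) : ℤ[X]) = C (-1) - 1 := by
      rw [← C_1, ← C_sub]
      norm_num
    rw [this]
    ring
  have hQ'0 : Q' ≠ 0 := by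
    intro h0
    apply hQ0
    have h1 : Q'.comp (X - C (-1)) = Q := by
      rw [hQ', comp_assoc]
      simp
    rw [← h1, h0, zero_comp]
  have hU0 : U.coeff 0 = (-2) ^ m := by
    rw [hU, coeff_zero_eq_eval_zero, eval_pow, eval_add, eval_X, eval_C, zero_add]
  have hU0' : U.coeff 0 ≠ 0 := by
    rw [hU0]
    exact pow_ne_zero _ (by norm_num)
  have hUne : U ≠ 0 := by
    rintro h0
    rw [h0, coeff_zero] at hU0'
    exact hU0' rfl
  have hUt : U.natTrailingDegree = 0 := natTrailingDegree_eq_zero.2 (Or.inr hU0')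
  set a := Q'.natTrailingDegree with ha
  have hTt : (U * Q').natTrailingDegree = a := by
    rw [natTrailingDegree_mul hUne hQ'0, hUt, zero_add]
  have hTc : (G.comp (X + C (-1))).coeff a = (-2) ^ m * Q'.trailingCoeff := by
    have h1 := trailingCoeff_mul U Q'
    rw [trailingCoeff, hTt, trailingCoeff, hUt, hU0] at h1
    rw [hT, h1]
  have ha2 : a ≤ D - m := by
    have h1 : a ≤ Q'.natDegree := natTrailingDegree_le_natDegree Q'
    have h2 : Q'.natDegree ≤ Q.natDegree := by
      rw [hQ', natDegree_comp]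
      have : (X + C (-1) : ℤ[X]).natDegree = 1 := natDegree_X_add_C _
      rw [this, mul_one]
    omega
  have h1 : 2 ^ m ≤ ((G.comp (X + C (-1))).coeff a).natAbs := by
    rw [hTc, Int.natAbs_mul, Int.natAbs_pow]
    have h2 : 1 ≤ Q'.trailingCoeff.natAbs := by
      rw [Nat.one_le_iff_ne_zero, Ne, Int.natAbs_eq_zero]
      exact fun h => hQ'0 (trailingCoeff_eq_zero.1 h)
    have h3 : ((-2 : ℤ)).natAbs = 2 := rfl
    rw [h3]
    exact Nat.le_mul_of_pos_right _ h2
  have h2 : ((G.comp (X + C (-1))).coeff a).natAbs ≤ B * (D + 1) ^ (D + 1 - m) := by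
    rw [coeff_comp_add G D hD]
    have h3 : (∑ k ∈ range (D + 1), G.coeff k * ((-1) ^ (k - a) * (k.choose a : ℤ))).natAbs ≤
        ∑ k ∈ range (D + 1), (G.coeff k * ((-1) ^ (k - a) * (k.choose a : ℤ))).natAbs :=
      Int.natAbs_sum_le _ _
    refine h3.trans ?_
    have h4 : ∀ k ∈ range (D + 1), (G.coeff k * ((-1) ^ (k - a) * (k.choose a : ℤ))).natAbs ≤
        B * (D + 1) ^ (D - m) := by
      intro k hk
      rw [mem_range] at hk
      rw [Int.natAbs_mul, Int.natAbs_mul, Int.natAbs_pow, Int.natAbs_neg, Int.natAbs_one, one_pow,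
        one_mul, Int.natAbs_natCast]
      refine Nat.mul_le_mul (hB k) ?_
      calc k.choose a ≤ k ^ a := choose_le_pow' k a
        _ ≤ (D + 1) ^ a := Nat.pow_le_pow_left (by omega) a
        _ ≤ (D + 1) ^ (D - m) := Nat.pow_le_pow_right (by omega) ha2
    refine (sum_le_sum h4).trans ?_
    rw [sum_const, card_range, smul_eq_mul]
    have h5 : D + 1 - m = (D - m) + 1 := by omega
    rw [h5, pow_succ]
    apply le_of_eq
    ring
  omega

/-- Divisibility by `(X - 1) ^ m` from the moments. -/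
theorem dvd_of_moments (G : ℤ[X]) (D m : ℕ) (hD : G.natDegree ≤ D)
    (h : ∀ u : ℂ[X], u.natDegree < m → ∑ k ∈ range (D + 1), (G.coeff k : ℂ) * u.eval (k : ℂ) = 0) :
    (X - 1) ^ m ∣ G := by
  have h1 : (X - C (1 : ℤ)) ^ m ∣ G := by
    rw [X_sub_C_pow_dvd_iff, X_pow_dvd_iff]
    intro j hj
    rw [coeff_comp_add G D hD]
    have h2 := h (descPochhammer ℂ j) (by
      rw [descPochhammer_natDegree]
      exact hj)
    have h3 : (j.factorial : ℂ) * ((∑ k ∈ range (D + 1), G.coeff k * (1 ^ (k - j) *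
        (k.choose j : ℤ)) : ℤ) : ℂ) = 0 := by
      rw [← h2]
      push_cast
      rw [mul_sum]
      refine sum_congr rfl fun k _ => ?_
      rw [descPochhammer_eval_eq_descFactorial, Nat.descFactorial_eq_factorial_mul_choose]
      push_cast
      ring
    have h4 := (mul_eq_zero.1 h3).resolve_left (by exact_mod_cast j.factorial_ne_zero)
    exact_mod_cast h4
  simpa using h1

end Pool.Agent.K4H57.FC
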